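import Mathlib
import Pool.Agent.helper58.DC.Spec1

/-!
# Module RE (helper61): restriction to a subgroup of the quotient
-/

set_option autoImplicit false

namespace Pool.Agent.helper61.DC

open Pool.Agent.helper58.DC

theorem RE_stab {G E A : Type} [Group G] [Group E] [Group A] (X : Extension G E A)
    (U : Subgroup A) (C : Finset (Subgroup G)) (ψ : G → ℂ) :
    ((resE X U).stab C ψ).map (resE X U).proj = ⊤ ↔ U ≤ (X.stab C ψ).map X.proj := by
  constructor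
  · intro h u hu
    have h1 : (⟨u, hu⟩ : U) ∈ ((resE X U).stab C ψ).map (resE X U).proj := by
      rw [h]
      exact Subgroup.mem_top _
    obtain ⟨e, he, he'⟩ := Subgroup.mem_map.1 h1
    refine Subgroup.mem_map.2 ⟨(e : E), he, ?_⟩
    exact congrArg Subtype.val he'
  · intro h
    rw [eq_top_iff]
    rintro ⟨u, hu⟩ -
    obtain ⟨e, he, he'⟩ := Subgroup.mem_map.1 (h hu)
    refine Subgroup.mem_map.2 ⟨⟨e, ?_⟩, he, ?_⟩
    · rw [Subgroup.mem_comap, he']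
      exact hu
    · exact Subtype.ext he'

theorem RE_kC (hIF : IF_stmt) {G E A : Type} [Group G] [Group E] [Group A] [Finite G]
    (X : Extension G E A) (p : ℕ) (M : Ideal (integralClosure ℤ ℂ)) (χ : G → ℂ) (d : ℤ)
    (U : Subgroup A) [Fintype {V : Subgroup A // U ≤ V}] (C : Finset (Subgroup G)) :
    kC (resE X U) p M χ d ⊤ C = ∑ V : {V : Subgroup A // U ≤ V}, kC X p M χ d V.1 C := by
  have hfin : ∀ V : {V : Subgroup A // U ≤ V}, Finite {ψ : G → ℂ // ψ ∈ IrrOn (nrm C) ∧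
      Defect p (nrm C) ψ d ∧ Induces M ψ χ ∧ (X.stab C ψ).map X.proj = V.1} := by
    intro V
    have h1 : (IrrOn (nrm C)).Finite := (hIF G (nrm C)).1
    exact (h1.subset (fun ψ (hψ : ψ ∈ {ψ : G → ℂ | ψ ∈ IrrOn (nrm C) ∧
      Defect p (nrm C) ψ d ∧ Induces M ψ χ ∧ (X.stab C ψ).map X.proj = V.1}) => hψ.1)).to_subtype
  show Nat.card {ψ : G → ℂ // ψ ∈ IrrOn (nrm C) ∧ Defect p (nrm C) ψ d ∧ Induces M ψ χ ∧
    ((resE X U).stab C ψ).map (resE X U).proj = ⊤} = ∑ V : {V : Subgroup A // U ≤ V},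
    Nat.card {ψ : G → ℂ // ψ ∈ IrrOn (nrm C) ∧ Defect p (nrm C) ψ d ∧ Induces M ψ χ ∧
    (X.stab C ψ).map X.proj = V.1}
  rw [← Nat.card_sigma]
  refine Nat.card_congr ⟨fun ψ => ⟨⟨(X.stab C ψ.1).map X.proj, (RE_stab X U C ψ.1).1 ψ.2.2.2.2⟩,
    ⟨ψ.1, ψ.2.1, ψ.2.2.1, ψ.2.2.2.1, rfl⟩⟩, fun x => ⟨x.2.1, x.2.2.1, x.2.2.2.1, x.2.2.2.2.1,
    (RE_stab X U C x.2.1).2 (by rw [x.2.2.2.2.2]; exact x.1.2)⟩, fun _ => rfl, ?_⟩
  rintro ⟨⟨V, hV⟩, ⟨ψ, hψ⟩⟩
  have h4 : (X.stab C ψ).map X.proj = V := hψ.2.2.2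
  subst h4
  rfl

theorem RE (hIF : IF_stmt) : RE_stmt := by
  intro G E A _ _ _ _ _ X p M χ hχ d U
  have : Finite A := Finite.of_surjective X.proj X.proj_surjective
  let _ : Fintype {V : Subgroup A // U ≤ V} := Fintype.ofFinite _
  have h1 : Finite (Quot (chainRel (G := G) p)) := Finite.of_surjective (Quot.mk _) Quot.mk_surjective
  let _ : Fintype (Quot (chainRel (G := G) p)) := Fintype.ofFinite _
  rw [finsum_eq_sum_of_fintype]
  unfold altSum
  rw [finsum_eq_sum_of_fintype]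
  simp_rw [finsum_eq_sum_of_fintype]
  rw [Finset.sum_comm]
  refine Finset.sum_congr rfl fun c _ => ?_
  rw [← Finset.mul_sum, RE_kC hIF]
  push_cast
  rfl

end Pool.Agent.helper61.DC
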